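import Mathlib
import Pool.Agent.H780R2.GainUpper
import Pool.Agent.H780R2.GainLower

set_option autoImplicit false

/-!
# The maximal gain of non-adaptive randomization for convex symmetric classes is one

`Pool.Agent.Helper228.Gain.detErr`, `ranErr`, `rate` and `gain` are the notions of the problem
file (see `Pool/Agent/Helper228/Gain/Defs.lean`).
-/

open scoped ENNReal
open MeasureTheory Set

namespace Pool.Agent.Results.MP_0852b5_an.GainIsOne

open Pool.Agent.Helper228.Gain

/-- The supremum of the rate differences over those instances only for which the rate of the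
deterministic minimal errors is positive and finite. -/
noncomputable def gainPos : ℝ≥0∞ :=
  sSup {t | ∃ (X Y : Type) (_ : NormedAddCommGroup X) (_ : NormedSpace ℝ X) (_ : CompleteSpace X)
    (_ : NormedAddCommGroup Y) (_ : NormedSpace ℝ Y) (_ : CompleteSpace Y)
    (S : X →L[ℝ] Y) (F : Set X), Convex ℝ F ∧ (∀ f ∈ F, -f ∈ F) ∧
      0 < rate (detErr S F) ∧ rate (detErr S F) < ⊤ ∧
      t = rate (ranErr S F) - rate (detErr S F)}

theorem gainPos_le : gainPos ≤ gain := by
  refine sSup_le_sSup ?_
  rintro t ⟨X, Y, i1, i2, i3, i4, i5, i6, S, F, h1, h2, -, h3, h4⟩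
  exact ⟨X, Y, i1, i2, i3, i4, i5, i6, S, F, h1, h2, h3, h4⟩

theorem one_le_gainPos : 1 ≤ gainPos := by
  have h1 : ∀ K : ℕ, 2 ≤ K → ENNReal.ofReal (1 - 2 / (K : ℝ)) ≤ gainPos := by
    intro K hK
    refine (Pool.Agent.H780R2.GainLower.gain_instance hK).trans (le_sSup ?_)
    exact ⟨BX, BX, inferInstance, inferInstance, inferInstance, inferInstance, inferInstance,
      inferInstance, Pool.Agent.H780R2.GainLower.Sid, Pool.Agent.H780R2.GainLower.Fs K,
      FS_convex _ _ _, FS_symm _ _ _, Pool.Agent.H780R2.GainLower.det_rate_pos hK,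
      lt_of_le_of_lt (Pool.Agent.H780R2.GainLower.det_rate_le hK) ENNReal.ofReal_lt_top, rfl⟩
  have h2 : Filter.Tendsto (fun K : ℕ => ENNReal.ofReal (1 - 2 / (K : ℝ))) Filter.atTop
      (nhds (ENNReal.ofReal (1 - 0))) := by
    apply ENNReal.tendsto_ofReal
    exact tendsto_const_nhds.sub (tendsto_const_div_atTop_nhds_zero_nat 2)
  rw [sub_zero, ENNReal.ofReal_one] at h2
  refine le_of_tendsto h2 ?_
  filter_upwards [Filter.eventually_ge_atTop 2] with K hK using h1 K hK

/-- **Main result.** `G = 1`; and the supremum is `1` also if only instances are admitted for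
which the rate of the deterministic minimal errors is positive. -/
theorem result : gain = 1 ∧ gainPos = 1 :=
  ⟨le_antisymm Pool.Agent.H780R2.GainUpper.gain_le_one (one_le_gainPos.trans gainPos_le),
    le_antisymm (gainPos_le.trans Pool.Agent.H780R2.GainUpper.gain_le_one) one_le_gainPos⟩

end Pool.Agent.Results.MP_0852b5_an.GainIsOne
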